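import Pool.Agent.Helper94.PQ.Stmts

set_option autoImplicit false

open NumberField
open scoped Classical

namespace PQ

open BKA Pool.Agent.Helper13.Swan

variable {F : Type} [Field F] [NumberField F]

/-- restriction of `σ` to the ring of integers of a normal extension -/
theorem exists_image (L : IntermediateField F (AlgebraicClosure F)) (hL : Normal F L) (σ : Gal F)
    (x : 𝓞 L) : ∃ y : 𝓞 L, ((y : L) : AlgebraicClosure F) = σ ((x : L) : AlgebraicClosure F) := by
  have h1 : algebraMap L (AlgebraicClosure F) (σ.restrictNormal L (x : L)) =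
      σ (algebraMap L (AlgebraicClosure F) (x : L)) := σ.restrictNormal_commutes L _
  refine ⟨⟨σ.restrictNormal L (x : L), ?_⟩, h1⟩
  exact x.isIntegral_coe.map ((σ.restrictNormal L : L ≃ₐ[F] L) : L →+* L).toIntAlgHom

theorem coe_inc (L : IntermediateField F (AlgebraicClosure F)) (x : 𝓞 L) :
    ((inc L x : Zb F) : AlgebraicClosure F) = ((x : L) : AlgebraicClosure F) := rfl

theorem mem_under (L : IntermediateField F (AlgebraicClosure F)) (𝔓 : Ideal (Zb F)) (x : 𝓞 L) :
    x ∈ under L 𝔓 ↔ inc L x ∈ 𝔓 := Iff.rfl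

theorem ext_OL (L : IntermediateField F (AlgebraicClosure F)) {x y : 𝓞 L}
    (h : ((x : L) : AlgebraicClosure F) = ((y : L) : AlgebraicClosure F)) : x = y :=
  RingOfIntegers.ext (Subtype.ext h)

theorem under_pow_stable (L : IntermediateField F (AlgebraicClosure F)) (hL : Normal F L)
    (𝔓 : Ideal (Zb F)) (τ : Gal F) (hτ : Congr 𝔓 1 τ) (k : ℕ) (a b : 𝓞 L)
    (ha : a ∈ under L 𝔓 ^ k)
    (hb : ((b : L) : AlgebraicClosure F) = τ ((a : L) : AlgebraicClosure F)) :
    b ∈ under L 𝔓 ^ k := by
  let e : 𝓞 L →+* 𝓞 L :=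
    { toFun := fun x => Classical.choose (exists_image L hL τ x)
      map_one' := by
        apply ext_OL
        rw [Classical.choose_spec (exists_image L hL τ 1)]
        exact map_one τ
      map_mul' := by
        intro x y
        apply ext_OL
        rw [Classical.choose_spec (exists_image L hL τ (x * y))]
        have h1 := Classical.choose_spec (exists_image L hL τ x)
        have h2 := Classical.choose_spec (exists_image L hL τ y)
        have h3 : (((Classical.choose (exists_image L hL τ x) *
            Classical.choose (exists_image L hL τ y) : 𝓞 L) : L) : AlgebraicClosure F) =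
            (((Classical.choose (exists_image L hL τ x) : 𝓞 L) : L) : AlgebraicClosure F) *
            (((Classical.choose (exists_image L hL τ y) : 𝓞 L) : L) : AlgebraicClosure F) := rfl
        rw [h3, h1, h2, ← map_mul]
        rfl
      map_zero' := by
        apply ext_OL
        rw [Classical.choose_spec (exists_image L hL τ 0)]
        exact map_zero τ
      map_add' := by
        intro x y
        apply ext_OL
        rw [Classical.choose_spec (exists_image L hL τ (x + y))]
        have h1 := Classical.choose_spec (exists_image L hL τ x)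
        have h2 := Classical.choose_spec (exists_image L hL τ y)
        have h3 : (((Classical.choose (exists_image L hL τ x) +
            Classical.choose (exists_image L hL τ y) : 𝓞 L) : L) : AlgebraicClosure F) =
            (((Classical.choose (exists_image L hL τ x) : 𝓞 L) : L) : AlgebraicClosure F) +
            (((Classical.choose (exists_image L hL τ y) : 𝓞 L) : L) : AlgebraicClosure F) := rfl
        rw [h3, h1, h2, ← map_add]
        rfl }
  have he : ∀ x : 𝓞 L, (((e x : 𝓞 L) : L) : AlgebraicClosure F) =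
      τ ((x : L) : AlgebraicClosure F) := fun x => Classical.choose_spec (exists_image L hL τ x)
  have h1 : (under L 𝔓).map e ≤ under L 𝔓 := by
    rw [Ideal.map_le_iff_le_comap]
    intro x hx
    rw [Ideal.mem_comap, mem_under]
    have h2 := hτ (inc L x) (inc L (e x)) (he x)
    rw [pow_one] at h2
    have h3 : inc L (e x) = (inc L (e x) - inc L x) + inc L x := by ring
    rw [h3]
    exact 𝔓.add_mem h2 hx
  have h2 : (under L 𝔓 ^ k).map e ≤ under L 𝔓 ^ k := by
    rw [Ideal.map_pow]
    exact Ideal.pow_right_mono h1 k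
  have h3 : b = e a := ext_OL L (by rw [hb, he])
  rw [h3]
  exact h2 (Ideal.mem_map_of_mem e ha)

theorem exists_image_Zb (σ : Gal F) (x : Zb F) :
    ∃ y : Zb F, (y : AlgebraicClosure F) = σ (x : AlgebraicClosure F) :=
  ⟨⟨σ (x : AlgebraicClosure F), (x.2 : IsIntegral ℤ (x : AlgebraicClosure F)).map
    ((σ : AlgebraicClosure F →+* AlgebraicClosure F).toIntAlgHom)⟩, rfl⟩

theorem exists_normal_finite (x : AlgebraicClosure F) :
    ∃ L : IntermediateField F (AlgebraicClosure F), FiniteDimensional F L ∧ Normal F L ∧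
      x ∈ L := by
  have hx : IsIntegral F x := Algebra.IsIntegral.isIntegral x
  haveI : FiniteDimensional F (IntermediateField.adjoin F {x}) :=
    IntermediateField.adjoin.finiteDimensional hx
  refine ⟨IntermediateField.normalClosure F (IntermediateField.adjoin F {x}) (AlgebraicClosure F),
    inferInstance, inferInstance, ?_⟩
  exact (IntermediateField.le_normalClosure (IntermediateField.adjoin F {x}))
    (IntermediateField.mem_adjoin_simple_self F x)

theorem st_GRP : ST_GRP := by
  intro F _ _ v 𝔓 hv
  have hmul : ∀ (L : IntermediateField F (AlgebraicClosure F)), Normal F L → ∀ (i : ℕ)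
      (σ τ : Gal F), Ram L 𝔓 i σ → Ram L 𝔓 i τ → Ram L 𝔓 i (σ * τ) := by
    intro L hL i σ τ hσ hτ x y hy
    obtain ⟨z, hz⟩ := exists_image L hL τ x
    have h1 := hτ x z hz
    have h2 := hσ z y (by rw [hz, hy]; rfl)
    have h3 : y - x = (y - z) + (z - x) := by ring
    rw [h3]
    exact Ideal.add_mem _ h2 h1
  have hinv : ∀ (L : IntermediateField F (AlgebraicClosure F)), ∀ (i : ℕ)
      (σ : Gal F), Ram L 𝔓 i σ → Ram L 𝔓 i σ⁻¹ := by
    intro L i σ hσ x y hy
    have h1 : ((x : L) : AlgebraicClosure F) = σ ((y : L) : AlgebraicClosure F) := by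
      rw [hy]
      exact (AlgEquiv.apply_symm_apply σ _).symm
    have h2 := hσ y x h1
    have h3 : y - x = -(x - y) := by ring
    rw [h3]
    exact (Ideal.neg_mem_iff _).2 h2
  refine ⟨?_, ?_, ?_, ?_, ?_, ?_, ?_, ?_⟩
  · intro σ τ hσ hτ x y hy
    obtain ⟨z, hz⟩ := exists_image_Zb τ x
    have h1 := hτ x z hz
    have h2 := hσ z y (by rw [hz, hy]; rfl)
    rw [pow_one] at h1 h2 ⊢
    have h3 : y - x = (y - z) + (z - x) := by ring
    rw [h3]
    exact 𝔓.add_mem h2 h1
  · intro σ hσ x y hy
    have h1 : (x : AlgebraicClosure F) = σ (y : AlgebraicClosure F) := by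
      rw [hy]
      exact (AlgEquiv.apply_symm_apply σ _).symm
    have h2 := hσ y x h1
    rw [pow_one] at h2 ⊢
    have h3 : y - x = -(x - y) := by ring
    rw [h3]
    exact (Ideal.neg_mem_iff _).2 h2
  · intro σ hσ x y hy
    obtain ⟨L, hL1, hL2, hx⟩ := exists_normal_finite (x : AlgebraicClosure F)
    let x' : 𝓞 L := ⟨⟨(x : AlgebraicClosure F), hx⟩, by
      have hxi : IsIntegral ℤ (x : AlgebraicClosure F) := x.2
      exact (isIntegral_algHom_iff
        ((algebraMap L (AlgebraicClosure F)).toIntAlgHom) (algebraMap L (AlgebraicClosure F)).injective).1 hxi⟩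
    obtain ⟨y', hy'⟩ := exists_image L hL2 σ x'
    have h1 := hσ L hL1 hL2 x' y' hy'
    have h2 : y' - x' ∈ under L 𝔓 := Ideal.pow_le_self (by norm_num) h1
    rw [mem_under] at h2
    have h3 : inc L (y' - x') = y - x ^ 1 := by
      rw [pow_one]
      apply Subtype.ext
      have h4 : ((y' - x' : 𝓞 L) : L) = (y' : L) - (x' : L) := rfl
      rw [coe_inc, h4]
      have h5 : (((y' : L) - (x' : L) : L) : AlgebraicClosure F) =
        ((y' : L) : AlgebraicClosure F) - ((x' : L) : AlgebraicClosure F) := rfl
      have h6 : ((y - x : Zb F) : AlgebraicClosure F) =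
        (y : AlgebraicClosure F) - (x : AlgebraicClosure F) := rfl
      rw [h5, hy', h6, hy]
      rfl
    rw [← h3]
    exact h2
  · intro σ τ hσ hτ L hL1 hL2
    exact hmul L hL2 1 σ τ (hσ L hL1 hL2) (hτ L hL1 hL2)
  · intro σ hσ L hL1 hL2
    exact hinv L 1 σ (hσ L hL1 hL2)
  · intro σ τ hσ hτ L hL1 hL2 x y hy
    obtain ⟨x', hx'⟩ := exists_image L hL2 τ⁻¹ x
    obtain ⟨y', hy'⟩ := exists_image L hL2 σ x'
    have h1 := hσ L hL1 hL2 x' y' hy'
    apply under_pow_stable L hL2 𝔓 τ hτ (1 + 1) (y' - x') (y - x) h1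
    have h4 : (((y - x : 𝓞 L) : L) : AlgebraicClosure F) =
      ((y : L) : AlgebraicClosure F) - ((x : L) : AlgebraicClosure F) := rfl
    have h5 : (((y' - x' : 𝓞 L) : L) : AlgebraicClosure F) =
      ((y' : L) : AlgebraicClosure F) - ((x' : L) : AlgebraicClosure F) := rfl
    rw [h4, h5, map_sub, hy', hx', hy]
    congr 1
    exact (AlgEquiv.apply_symm_apply τ _).symm
  · intro L hL σ hσ
    have hres : ∀ x : L, σ (x : AlgebraicClosure F) =
        ((σ.restrictNormal L x : L) : AlgebraicClosure F) :=
      fun x => (σ.restrictNormal_commutes L x).symm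
    refine ⟨σ.restrictNormal L, ?_, hres⟩
    intro x y hy
    rw [mem_under]
    have h1 : ((inc L y : Zb F) : AlgebraicClosure F) = σ ((inc L x : Zb F) : AlgebraicClosure F) := by
      rw [coe_inc, coe_inc, hres, hy]
    have h2 := hσ _ _ h1
    rw [pow_one, ← map_sub] at h2
    exact h2
  · intro L i σ g hg
    constructor
    · intro h x y hy
      exact h x y (by rw [hg, hy])
    · intro h x y hy
      exact h x y (Subtype.ext (by rw [hy, hg]))

end PQ
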